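import Pool.Agent.H64.EV.Targets

/-!
# Row ORE of the board evn_modules: reversed words
-/

set_option autoImplicit false
set_option linter.unusedSectionVars false

open Matrix Pool.Agent.H64.CC Pool.Agent.H2.NL Pool.Agent.H64.EV

namespace Pool.Agent.H40.EV

theorem pf_ORE : T_ORE := by
  intro K _ I _ _ F n t
  constructor
  · intro j hj w hw
    obtain ⟨α, a, b, β, rfl, rfl⟩ := exists_split j w (by omega)
    rw [sw_append]
    unfold rv
    have e1 : (α ++ b :: a :: β).reverse = β.reverse ++ a :: b :: α.reverse := by simp
    have e2 : (α ++ a :: b :: β).reverse = β.reverse ++ b :: a :: α.reverse := by simp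
    have e3 : n - 2 - α.length = β.reverse.length := by
      simp at hw ⊢
      omega
    rw [e1, e2, e3, sw_append, ks_comm K (F.o a) (F.o b)]
  · intro w hw
    have h := OForm.con_append F w.reverse t []
    have e : w.reverse.length = n := by simp [hw]
    rw [e, List.append_nil] at h
    unfold OForm.con' rv
    rw [h]
    refine Finset.sum_congr rfl fun a _ => ?_
    simp

end Pool.Agent.H40.EV
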