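import Pool.Agent.H64.EV.Targets

/-!
# Row TC1 of the board evn_modules: the components of exchanged, composed and reversed tensors
-/

set_option autoImplicit false
set_option linter.unusedSectionVars false

open Matrix Pool.Agent.H64.CC Pool.Agent.H2.NL Pool.Agent.H64.EV

namespace Pool.Agent.H40.EV

section

variable {K : Type} [Field K] {I : Type} [Fintype I] [DecidableEq I] (F : OForm K I)

theorem lw_append : ∀ (u v : List (I × Bool)) (i : ℕ),
    F.lw i (u ++ v) = F.lw i u * F.lw (i + u.length) v
  | [], v, i => by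
    change F.lw i v = 1 * F.lw (i + 0) v
    rw [one_mul, Nat.add_zero]
  | a :: u, v, i => by
    change F.lam i a * F.lw (i + 1) (u ++ v) =
      F.lam i a * F.lw (i + 1) u * F.lw (i + (u.length + 1)) v
    rw [lw_append u v (i + 1), show i + 1 + u.length = i + (u.length + 1) by omega, mul_assoc]

theorem lam_two (i : ℕ) (a : I × Bool) : F.lam (i + 2) a = F.lam i a := by
  unfold OForm.lam
  rw [pow_add, pow_two, sg_mul_self, mul_one]

theorem lw_two : ∀ (u : List (I × Bool)) (i : ℕ), F.lw (i + 2) u = F.lw i u
  | [], _ => rfl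
  | a :: u, i => by
    change F.lam (i + 2) a * F.lw (i + 2 + 1) u = F.lam i a * F.lw (i + 1) u
    rw [lam_two, show i + 2 + 1 = i + 1 + 2 by omega, lw_two u (i + 1)]

theorem lw_even (u : List (I × Bool)) (i : ℕ) : ∀ k : ℕ, F.lw (i + 2 * k) u = F.lw i u
  | 0 => rfl
  | k + 1 => by
    rw [show i + 2 * (k + 1) = i + 2 * k + 2 by omega, lw_two, lw_even u i k]

/-- exchange of two letters -/
theorem lw_swap (u v : List (I × Bool)) (a b : I × Bool) :
    F.lw 0 (u ++ a :: b :: v) =
      sg K (F.o a.1) * sg K (F.o b.1) * F.lw 0 (u ++ b :: a :: v) := by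
  rw [lw_append, lw_append]
  change F.lw 0 u * (F.lam (0 + u.length) a * (F.lam (0 + u.length + 1) b *
    F.lw (0 + u.length + 1 + 1) v)) = sg K (F.o a.1) * sg K (F.o b.1) *
    (F.lw 0 u * (F.lam (0 + u.length) b * (F.lam (0 + u.length + 1) a *
    F.lw (0 + u.length + 1 + 1) v)))
  have h1 : ∀ x : I × Bool, F.lam (0 + u.length + 1) x = sg K (F.o x.1) *
      F.lam (0 + u.length) x := by
    intro x
    unfold OForm.lam
    rw [pow_succ]
    ring
  rw [h1 a, h1 b]
  have h2 : sg K (F.o a.1) * sg K (F.o a.1) = 1 := sg_mul_self K _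
  linear_combination (-(sg K (F.o b.1) * F.lw 0 u * F.lam (0 + u.length) a *
    F.lam (0 + u.length) b * F.lw (0 + u.length + 1 + 1) v)) * h2

theorem lw_reverse : ∀ (u : List (I × Bool)) (i : ℕ),
    F.lw i u.reverse = F.lw (i + u.length + 1) u
  | [], _ => rfl
  | a :: u, i => by
    rw [List.reverse_cons, lw_append, lw_reverse u i, List.length_reverse]
    change F.lw (i + u.length + 1) u * (F.lam (i + u.length) a * 1) =
      F.lam (i + (u.length + 1) + 1) a * F.lw (i + (u.length + 1) + 1 + 1) u
    rw [show i + (u.length + 1) + 1 = i + u.length + 2 by omega, lam_two,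
      show i + u.length + 2 + 1 = i + u.length + 1 + 2 by omega, lw_two]
    ring

theorem lw_succ : ∀ (w : List I) (σ : List Bool) (i : ℕ), σ.length = w.length →
    F.lw (i + 1) (w.zip σ) = (w.map fun a => sg K (F.o a)).prod * F.lw i (w.zip σ)
  | [], [], i, _ => by
    change (1 : K) = 1 * 1
    rw [one_mul]
  | a :: w, s :: σ, i, h => by
    rw [List.zip_cons_cons, List.map_cons, List.prod_cons]
    change F.lam (i + 1) (a, s) * F.lw (i + 1 + 1) (w.zip σ) =
      sg K (F.o a) * (w.map fun a => sg K (F.o a)).prod * (F.lam i (a, s) * F.lw (i + 1) (w.zip σ))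
    rw [lw_succ w σ (i + 1) (by simpa using h)]
    unfold OForm.lam
    rw [pow_succ]
    ring
  | [], _ :: _, _, h => by simp at h
  | _ :: _, [], _, h => by simp at h

theorem prod_sg : ∀ w : List I, (w.map fun a => sg K (F.o a)).prod = (-1) ^ odds F.o w
  | [] => by simp [odds]
  | a :: w => by
    rw [List.map_cons, List.prod_cons, prod_sg w]
    unfold odds
    by_cases h : F.o a = true
    · rw [List.filter_cons_of_pos h, List.length_cons, pow_succ]
      unfold sg
      rw [if_pos h]
      ring
    · rw [List.filter_cons_of_neg h]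
      unfold sg
      rw [if_neg h, one_mul]

end

theorem pf_TC1 : T_TC1 := by
  intro K _ I _ _ F
  refine ⟨?_, ?_, ?_⟩
  · intro j t σ w hσ hj
    obtain ⟨α, a, b, β, rfl, rfl⟩ := exists_split j w hj
    obtain ⟨α', s, s', β', hα, rfl⟩ : ∃ (α' : List Bool) (s s' : Bool) (β' : List Bool),
        α'.length = α.length ∧ σ = α' ++ s :: s' :: β' := by
      obtain ⟨α', s, s', β', h1, h2⟩ := exists_split α.length σ (by rw [hσ]; exact hj)
      exact ⟨α', s, s', β', by first | exact h1.symm | exact h2.symm | exact h1 | exact h2,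
        by first | exact h1 | exact h2⟩
    have hβ : β'.length = β.length := by
      simp only [List.length_append, List.length_cons] at hσ
      omega
    have hx : xs α.length (α' ++ s :: s' :: β') = α' ++ s' :: s :: β' := by
      rw [← hα]
      clear hα hσ hj
      induction α' with
      | nil => rfl
      | cons x α' ih => exact congrArg (List.cons x) ih
    have hz : ∀ (x y : I) (p q : Bool), (α ++ x :: y :: β).zip (α' ++ p :: q :: β') =
        α.zip α' ++ (x, p) :: (y, q) :: β.zip β' := by
      intro x y p q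
      rw [List.zip_append hα.symm, List.zip_cons_cons, List.zip_cons_cons]
    have hlen : (α.zip α').length = α.length := by
      rw [List.length_zip, hα, min_self]
    have e1 : sw F.tl.o α.length t ((α ++ a :: b :: β).zip (α' ++ s :: s' :: β')) =
        ks K (!F.o a) (!F.o b) * t (α.zip α' ++ (b, s') :: (a, s) :: β.zip β') := by
      rw [hz, ← hlen, sw_append]
      rfl
    have e2 : sw F.o α.length (F.cmp t (xs α.length (α' ++ s :: s' :: β')))
        (α ++ a :: b :: β) = ks K (F.o a) (F.o b) *
        ((F.lw 0 (α.zip α' ++ (b, s') :: (a, s) :: β.zip β'))⁻¹ *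
          t (α.zip α' ++ (b, s') :: (a, s) :: β.zip β')) := by
      rw [sw_append, hx]
      unfold OForm.cmp
      rw [hz]
    have e3 : (F.lw 0 (α.zip α' ++ (a, s) :: (b, s') :: β.zip β'))⁻¹ =
        sg K (F.o a) * sg K (F.o b) *
          (F.lw 0 (α.zip α' ++ (b, s') :: (a, s) :: β.zip β'))⁻¹ := by
      rw [lw_swap, mul_inv, mul_inv]
      congr 1
      unfold sg
      split_ifs <;> simp
    rw [e2]
    unfold OForm.cmp
    rw [e1, hz, e3]
    have e4 : sg K (F.o a) * sg K (F.o b) * ks K (!F.o a) (!F.o b) = -ks K (F.o a) (F.o b) := by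
      unfold sg ks
      cases F.o a <;> cases F.o b <;> simp
    linear_combination ((F.lw 0 (α.zip α' ++ (b, s') :: (a, s) :: β.zip β'))⁻¹ *
      t (α.zip α' ++ (b, s') :: (a, s) :: β.zip β')) * e4
  · intro k t t' σ w hσ hk
    have hz : w.zip σ = (w.take (2 * k)).zip (σ.take (2 * k)) ++
        (w.drop (2 * k)).zip (σ.drop (2 * k)) := by
      rw [← List.zip_append (by rw [List.length_take, List.length_take, hσ]),
        List.take_append_drop, List.take_append_drop]
    have hlen : ((w.take (2 * k)).zip (σ.take (2 * k))).length = 2 * k := by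
      rw [List.length_zip, List.length_take, List.length_take, hσ, min_self, min_eq_left hk]
    unfold OForm.cmp tp
    rw [hz, List.take_left' hlen, List.drop_left' hlen, lw_append, hlen,
      lw_even F _ 0 k, mul_inv]
    ring
  · intro k t σ w hw hσ hodd
    have hz : w.reverse.zip σ.reverse = (w.zip σ).reverse := by
      exact (List.reverse_zipWith (f := Prod.mk) (hw.trans hσ.symm)).symm
    unfold OForm.cmp rv
    change (F.lw 0 (w.zip σ))⁻¹ * t (w.zip σ).reverse =
      (F.lw 0 (w.reverse.zip σ.reverse))⁻¹ * t (w.reverse.zip σ.reverse)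
    have hlen : (w.zip σ).length = 2 * k := by
      rw [List.length_zip, hw, hσ, min_self]
    rw [hz, lw_reverse, hlen, show 0 + 2 * k + 1 = 1 + 2 * k by omega, lw_even F _ 1 k,
      show (1 : ℕ) = 0 + 1 from rfl, lw_succ F w σ 0 (by rw [hw, hσ]), prod_sg,
      Even.neg_one_pow hodd, one_mul]

end Pool.Agent.H40.EV
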