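import Pool.Agent.H40.EV.TC1

/-!
# Row TC2 of the board evn_modules: the components of contracted tensors
-/

set_option autoImplicit false
set_option linter.unusedSectionVars false

open Matrix Pool.Agent.H64.CC Pool.Agent.H2.NL Pool.Agent.H64.EV

namespace Pool.Agent.H40.EV

section

variable {K : Type} [Field K] {I : Type} [Fintype I] [DecidableEq I] (F : OForm K I)

theorem sg_pow (p : Bool) (j : ℕ) : sg K p ^ j * sg K p ^ (j + 1) = sg K p := by
  rw [← pow_add, show j + (j + 1) = 2 * j + 1 by omega, pow_succ, pow_mul, pow_two, sg_mul_self,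
    one_pow, one_mul]

theorem sg_inv' (p : Bool) : (sg K p)⁻¹ = sg K p := inv_eq_of_mul_eq_one_left (sg_mul_self K p)

theorem tlc_false (a : I) : F.tl.c (a, false) = 1 := by
  change (if F.o a = false ∧ false = true then (-1 : K) else 1) = 1
  rw [if_neg]
  rintro ⟨-, h⟩
  exact absurd h (by decide)

theorem tlc_true (a : I) : F.tl.c (a, true) = -sg K (F.o a) := by
  change (if F.o a = false ∧ true = true then (-1 : K) else 1) = -sg K (F.o a)
  unfold sg
  cases F.o a <;> simp

/-- two letters, the first with `false` -/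
theorem lw_ft (u v : List (I × Bool)) (a : I) :
    F.lw 0 (u ++ (a, false) :: (F.st a, true) :: v) = F.c a * F.lw 0 (u ++ v) := by
  rw [lw_append, lw_append]
  change F.lw 0 u * (F.lam (0 + u.length) (a, false) * (F.lam (0 + u.length + 1) (F.st a, true) *
    F.lw (0 + u.length + 2) v)) = _
  rw [lw_two]
  have h1 : F.lam (0 + u.length) (a, false) * F.lam (0 + u.length + 1) (F.st a, true) = F.c a := by
    change sg K (F.o a) ^ (0 + u.length) * F.c (F.st a) *
      (sg K (F.o (F.st a)) ^ (0 + u.length + 1) * 1) = F.c a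
    rw [F.o_st, ← F.sg_c_st a]
    linear_combination (F.c (F.st a)) * sg_pow (K := K) (F.o a) (0 + u.length)
  linear_combination (F.lw 0 u * F.lw (0 + u.length) v) * h1

/-- two letters, the first with `true` -/
theorem lw_tf (u v : List (I × Bool)) (a : I) :
    F.lw 0 (u ++ (a, true) :: (F.st a, false) :: v) = sg K (F.o a) * F.c a * F.lw 0 (u ++ v) := by
  rw [lw_append, lw_append]
  change F.lw 0 u * (F.lam (0 + u.length) (a, true) * (F.lam (0 + u.length + 1) (F.st a, false) *
    F.lw (0 + u.length + 2) v)) = _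
  rw [lw_two]
  have h1 : F.lam (0 + u.length) (a, true) * F.lam (0 + u.length + 1) (F.st a, false) =
      sg K (F.o a) * F.c a := by
    change sg K (F.o a) ^ (0 + u.length) * 1 *
      (sg K (F.o (F.st a)) ^ (0 + u.length + 1) * F.c (F.st (F.st a))) = sg K (F.o a) * F.c a
    rw [F.o_st, F.st_st]
    linear_combination (F.c a) * sg_pow (K := K) (F.o a) (0 + u.length)
  linear_combination (F.lw 0 u * F.lw (0 + u.length) v) * h1

theorem term_ft (u v : List (I × Bool)) (a : I) (x : K) :
    (F.lw 0 (u ++ v))⁻¹ * (F.tl.c (a, false) * x) =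
      F.c a * ((F.lw 0 (u ++ (a, false) :: (F.st a, true) :: v))⁻¹ * x) := by
  rw [tlc_false, lw_ft, mul_inv, one_mul]
  linear_combination (-((F.lw 0 (u ++ v))⁻¹ * x)) * mul_inv_cancel₀ (F.c_ne a)

theorem term_tf (u v : List (I × Bool)) (a : I) (x : K) :
    (F.lw 0 (u ++ v))⁻¹ * (F.tl.c (a, true) * x) =
      -(F.c a * ((F.lw 0 (u ++ (a, true) :: (F.st a, false) :: v))⁻¹ * x)) := by
  rw [tlc_true, lw_tf, mul_inv, mul_inv, sg_inv']
  linear_combination (sg K (F.o a) * (F.lw 0 (u ++ v))⁻¹ * x) * mul_inv_cancel₀ (F.c_ne a)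

end

theorem pf_TC2 : T_TC2 := by
  intro K _ I _ _ F
  refine ⟨?_, ?_⟩
  · intro j t σ w hσ hj
    obtain ⟨α, β, rfl, rfl⟩ := exists_split' j w hj
    obtain ⟨σ1, σ2, h1, rfl⟩ := exists_split' α.length σ (by rw [hσ]; exact hj)
    have hlen : (α.zip σ1).length = α.length := by
      rw [List.length_zip, h1, min_self]
    have e0 : (α ++ β).zip (σ1 ++ σ2) = α.zip σ1 ++ β.zip σ2 := List.zip_append h1.symm
    have e1 : ∀ (p q : Bool) (a : I), (α ++ a :: F.st a :: β).zip (σ1 ++ p :: q :: σ2) =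
        α.zip σ1 ++ (a, p) :: (F.st a, q) :: β.zip σ2 := fun p q a => by
      rw [List.zip_append h1.symm, List.zip_cons_cons, List.zip_cons_cons]
    rw [List.take_left' h1, List.drop_left' h1, OForm.con_append, OForm.con_append,
      ← Finset.sum_sub_distrib]
    have hL : F.cmp (con F.tl.η α.length t) (σ1 ++ σ2) (α ++ β) =
        (F.lw 0 (α.zip σ1 ++ β.zip σ2))⁻¹ * ∑ x : I × Bool, F.tl.c x *
          t (α.zip σ1 ++ x :: F.tl.st x :: β.zip σ2) := by
      unfold OForm.cmp
      rw [e0, ← Form.con_append F.tl (α.zip σ1) t (β.zip σ2), hlen]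
    rw [hL, Fintype.sum_prod_type, Finset.mul_sum]
    refine Finset.sum_congr rfl fun a _ => ?_
    rw [Fintype.sum_bool, mul_add]
    unfold OForm.cmp
    rw [e1, e1, term_ft, term_tf]
    change -(F.c a * ((F.lw 0 (α.zip σ1 ++ (a, true) :: (F.st a, false) :: β.zip σ2))⁻¹ *
        t (α.zip σ1 ++ (a, true) :: (F.st a, false) :: β.zip σ2))) +
      F.c a * ((F.lw 0 (α.zip σ1 ++ (a, false) :: (F.st a, true) :: β.zip σ2))⁻¹ *
        t (α.zip σ1 ++ (a, false) :: (F.st a, true) :: β.zip σ2)) = _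
    ring
  · intro t σ w hσ
    have key1 : ∀ a : I, (F.lw 0 (w.zip σ))⁻¹ * (F.tl.c (a, false) *
        t ((F.st a, true) :: (a, false) :: w.zip σ)) =
        F.c a * ((F.lw 0 ((F.st a, true) :: (a, false) :: w.zip σ))⁻¹ *
          t ((F.st a, true) :: (a, false) :: w.zip σ)) := by
      intro a
      have h1 : F.lw 0 ((F.st a, true) :: (a, false) :: w.zip σ) = F.c a * F.lw 0 (w.zip σ) := by
        have h2 := lw_tf F [] (w.zip σ) (F.st a)
        rw [F.st_st, F.o_st, F.sg_c_st] at h2
        exact h2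
      rw [h1, tlc_false, mul_inv]
      linear_combination (-((F.lw 0 (w.zip σ))⁻¹ *
        t ((F.st a, true) :: (a, false) :: w.zip σ))) * mul_inv_cancel₀ (F.c_ne a)
    have key2 : ∀ a : I, (F.lw 0 (w.zip σ))⁻¹ * (F.tl.c (a, true) *
        t ((F.st a, false) :: (a, true) :: w.zip σ)) =
        -(F.c a * ((F.lw 0 ((F.st a, false) :: (a, true) :: w.zip σ))⁻¹ *
          t ((F.st a, false) :: (a, true) :: w.zip σ))) := by
      intro a
      have h1 : F.lw 0 ((F.st a, false) :: (a, true) :: w.zip σ) =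
          sg K (F.o a) * F.c a * F.lw 0 (w.zip σ) := by
        have h2 := lw_ft F [] (w.zip σ) (F.st a)
        rw [F.st_st, F.c_st] at h2
        exact h2
      rw [h1, tlc_true, mul_inv, mul_inv, sg_inv']
      linear_combination (sg K (F.o a) * (F.lw 0 (w.zip σ))⁻¹ *
        t ((F.st a, false) :: (a, true) :: w.zip σ)) * mul_inv_cancel₀ (F.c_ne a)
    unfold OForm.con'
    rw [← Finset.sum_sub_distrib]
    have hL : F.cmp (con' F.tl t) σ w = (F.lw 0 (w.zip σ))⁻¹ * ∑ x : I × Bool, F.tl.c x *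
        t (F.tl.st x :: x :: w.zip σ) := rfl
    rw [hL, Fintype.sum_prod_type, Finset.mul_sum]
    refine Finset.sum_congr rfl fun a _ => ?_
    rw [Fintype.sum_bool, mul_add]
    have k1 := key1 a
    have k2 := key2 a
    change (F.lw 0 (w.zip σ))⁻¹ * (F.tl.c (a, true) *
        t ((F.st a, false) :: (a, true) :: w.zip σ)) + (F.lw 0 (w.zip σ))⁻¹ *
        (F.tl.c (a, false) * t ((F.st a, true) :: (a, false) :: w.zip σ)) =
      F.c a * ((F.lw 0 ((F.st a, true) :: (a, false) :: w.zip σ))⁻¹ *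
          t ((F.st a, true) :: (a, false) :: w.zip σ)) -
      F.c a * ((F.lw 0 ((F.st a, false) :: (a, true) :: w.zip σ))⁻¹ *
          t ((F.st a, false) :: (a, true) :: w.zip σ))
    rw [k1, k2]
    ring

end Pool.Agent.H40.EV
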